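import Pool.Agent.H73.PHS.Stmts

set_option autoImplicit false

open Set

namespace Pool.PHS

private lemma LCB_der {n : ℕ} {ρ : Cn n → ℝ} (hρ : ContDiff ℝ 1 ρ) (y w : Cn n) (t : ℝ) :
    HasDerivAt (fun t : ℝ => ρ (y + t • w)) (fderiv ℝ ρ (y + t • w) w) t := by
  have h1 : HasFDerivAt ρ (fderiv ℝ ρ (y + t • w)) (y + t • w) :=
    ((hρ.differentiable (by norm_num)) (y + t • w)).hasFDerivAt
  have h2 : HasDerivAt (fun t : ℝ => y + t • w) w t := by
    have h3 := ((hasDerivAt_id t).smul_const w).const_add y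
    simpa using h3
  exact h1.comp_hasDerivAt t h2

private lemma LCB_line {n : ℕ} {ρ : Cn n → ℝ} (hρ : ContDiff ℝ 1 ρ) (y w : Cn n) (c : ℝ)
    (h : ∀ t ∈ Icc (0 : ℝ) 1, c ≤ fderiv ℝ ρ (y + t • w) w) :
    ∀ t ∈ Icc (0 : ℝ) 1, ρ y + c * t ≤ ρ (y + t • w) := by
  intro t ht
  have h1 := (convex_Icc (0 : ℝ) 1).mul_sub_le_image_sub_of_le_deriv
    (f := fun t : ℝ => ρ (y + t • w)) (C := c)
    (fun t _ => (LCB_der hρ y w t).continuousAt.continuousWithinAt)
    (fun t _ => (LCB_der hρ y w t).differentiableAt.differentiableWithinAt)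
    (fun t ht => by
      rw [(LCB_der hρ y w t).deriv]
      exact h t (interior_subset ht))
    0 ⟨le_refl _, zero_le_one⟩ t ht ht.1
  simp only [zero_smul, add_zero, sub_zero] at h1
  linarith

theorem LCB_thm : LCBStmt := by
  intro n ρ x hρ hx hd
  obtain ⟨u, hu⟩ : ∃ u, fderiv ℝ ρ x u ≠ 0 := by
    by_contra h
    push Not at h
    exact hd (ContinuousLinearMap.ext h)
  set v : Cn n := (fderiv ℝ ρ x u)⁻¹ • u with hv
  have hv1 : fderiv ℝ ρ x v = 1 := by
    rw [hv, map_smul, smul_eq_mul, inv_mul_cancel₀ hu]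
  have hcont : Continuous (fun y => fderiv ℝ ρ y v) :=
    (hρ.continuous_fderiv (by norm_num)).clm_apply continuous_const
  obtain ⟨r, hr, hr2⟩ : ∃ r > 0, ∀ y, ‖y - x‖ < r → 1 / 2 < fderiv ℝ ρ y v := by
    have h1 : ∀ᶠ y in nhds x, 1 / 2 < fderiv ℝ ρ y v := by
      apply hcont.continuousAt.eventually_const_lt
      show 1 / 2 < fderiv ℝ ρ x v
      rw [hv1]
      norm_num
    obtain ⟨r, hr, h2⟩ := Metric.eventually_nhds_iff.1 h1
    exact ⟨r, hr, fun y hy => h2 (by rwa [dist_eq_norm])⟩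
  obtain ⟨s, hs, hs2⟩ : ∃ s > 0, s * ‖v‖ < r / 2 := by
    refine ⟨r / 2 / (‖v‖ + 1), by positivity, ?_⟩
    rw [div_mul_eq_mul_div, div_lt_iff₀ (by positivity)]
    nlinarith [norm_nonneg v]
  obtain ⟨δ₁, hδ₁, hδ₁2⟩ : ∃ δ > 0, ∀ y, ‖y - x‖ < δ → |ρ y| < s / 2 := by
    have h1 : ∀ᶠ y in nhds x, |ρ y| < s / 2 := by
      have h2 : Continuous (fun y => |ρ y|) := hρ.continuous.abs
      apply h2.continuousAt.eventually_lt_const
      show |ρ x| < s / 2
      rw [hx, abs_zero]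
      positivity
    obtain ⟨r, hr, h2⟩ := Metric.eventually_nhds_iff.1 h1
    exact ⟨r, hr, fun y hy => h2 (by rwa [dist_eq_norm])⟩
  set δ := min δ₁ (r / 2) with hδ
  have hδ0 : 0 < δ := lt_min hδ₁ (by positivity)
  have hnear : ∀ y, ‖y - x‖ < δ → ∀ t ∈ Icc (0 : ℝ) 1, ‖y + t • (s • v) - x‖ < r := by
    intro y hy t ht
    have h1 : y + t • (s • v) - x = (y - x) + t • (s • v) := by abel
    rw [h1]
    refine (norm_add_le _ _).trans_lt ?_
    have h2 : ‖t • (s • v)‖ ≤ s * ‖v‖ := by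
      rw [norm_smul, norm_smul, Real.norm_eq_abs, Real.norm_eq_abs, abs_of_nonneg ht.1,
        abs_of_pos hs]
      have h3 : 0 ≤ s * ‖v‖ := by positivity
      nlinarith [ht.2]
    have h3 : δ ≤ r / 2 := min_le_right _ _
    linarith
  have hline : ∀ y, ‖y - x‖ < δ → ∀ t ∈ Icc (0 : ℝ) 1,
      ρ y + s / 2 * t ≤ ρ (y + t • (s • v)) := by
    intro y hy
    apply LCB_line hρ
    intro t ht
    have h1 := hr2 _ (hnear y hy t ht)
    rw [map_smul, smul_eq_mul]
    nlinarith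
  have hend : ∀ z ∈ Metric.ball (x + s • v) δ, 0 ≤ ρ z := by
    intro z hz
    have h1 : ‖(z - s • v) - x‖ < δ := by
      rw [Metric.mem_ball, dist_eq_norm] at hz
      have h2 : z - s • v - x = z - (x + s • v) := by abel
      rwa [h2]
    have h2 := hline _ h1 1 ⟨zero_le_one, le_refl _⟩
    rw [one_smul, sub_add_cancel, mul_one] at h2
    have h3 := (abs_lt.1 (hδ₁2 _ (h1.trans_le (min_le_left _ _)))).1
    linarith
  have hball : IsPreconnected (Metric.ball (x + s • v) δ) :=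
    (convex_ball _ _).isPreconnected
  refine ⟨δ, hδ0, {z | z ∈ Metric.ball (x + s • v) δ ∨
    ∃ y, ‖y - x‖ < δ ∧ 0 ≤ ρ y ∧ z ∈ segment ℝ y (y + s • v)}, ?_, ?_, ?_⟩
  · apply isPreconnected_of_forall (x + s • v)
    rintro z (hz | ⟨y, hy, hy0, hz⟩)
    · exact ⟨Metric.ball (x + s • v) δ, fun w hw => Or.inl hw, Metric.mem_ball_self hδ0, hz, hball⟩
    · refine ⟨Metric.ball (x + s • v) δ ∪ segment ℝ y (y + s • v), ?_,
        Or.inl (Metric.mem_ball_self hδ0), Or.inr hz, ?_⟩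
      · rintro w (hw | hw)
        · exact Or.inl hw
        · exact Or.inr ⟨y, hy, hy0, hw⟩
      · refine IsPreconnected.union (y + s • v) ?_ (right_mem_segment ℝ _ _) hball
          (convex_segment _ _).isPreconnected
        rw [Metric.mem_ball, dist_eq_norm]
        have h2 : y + s • v - (x + s • v) = y - x := by abel
        rwa [h2]
  · rintro z (hz | ⟨y, hy, hy0, hz⟩)
    · exact hend z hz
    · rw [segment_eq_image'] at hz
      obtain ⟨t, ht, rfl⟩ := hz
      have h1 := hline y hy t ht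
      have h2 : 0 ≤ s / 2 * t := mul_nonneg (by positivity) ht.1
      show 0 ≤ ρ (y + t • (y + s • v - y))
      rw [add_sub_cancel_left]
      linarith
  · intro y hy hy0
    exact Or.inr ⟨y, hy, hy0, left_mem_segment ℝ _ _⟩

end Pool.PHS
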